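import Pool.Agent.Helper208_C1.Circ

/-! From actions on the interval to actions on the circle. -/

open Set Filter Topology
open scoped Manifold ContDiff

namespace Pool.Agent.Helper208_C1

noncomputable section

/-- logistic function -/
def si (x : ℝ) : ℝ := (1 + Real.exp (-x))⁻¹

/-- its inverse -/
def lg (t : ℝ) : ℝ := Real.log (t / (1 - t))

lemma den_pos (x : ℝ) : 0 < 1 + Real.exp (-x) := by positivity

lemma si_pos (x : ℝ) : 0 < si x := inv_pos.2 (den_pos x)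

lemma si_lt_one (x : ℝ) : si x < 1 := inv_lt_one_of_one_lt₀ (by linarith [Real.exp_pos (-x)])

lemma si_mem (x : ℝ) : si x ∈ Ioo (0 : ℝ) 1 := ⟨si_pos x, si_lt_one x⟩

lemma one_sub_si (x : ℝ) : 1 - si x = si (-x) := by
  unfold si
  rw [neg_neg]
  have h1 := (den_pos x).ne'
  have h2 : (1 : ℝ) + Real.exp x ≠ 0 := by positivity
  field_simp
  rw [Real.exp_neg]
  have h3 := (Real.exp_pos x).ne'
  field_simp
  ring

lemma lg_si (x : ℝ) : lg (si x) = x := by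
  unfold lg
  rw [one_sub_si]
  unfold si
  rw [neg_neg]
  have h1 := (den_pos x).ne'
  have h2 : (1 : ℝ) + Real.exp x ≠ 0 := by positivity
  have : (1 + Real.exp (-x))⁻¹ / (1 + Real.exp x)⁻¹ = Real.exp x := by
    rw [Real.exp_neg] at h1 ⊢
    have h3 := (Real.exp_pos x).ne'
    field_simp
    ring
  rw [this, Real.log_exp]

lemma si_lg {t : ℝ} (ht : t ∈ Ioo (0 : ℝ) 1) : si (lg t) = t := by
  unfold si lg
  have h1 : 0 < t / (1 - t) := div_pos ht.1 (by linarith [ht.2])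
  rw [Real.exp_neg, Real.exp_log h1]
  have h2 := ht.1.ne'
  have h3 : (1 : ℝ) - t ≠ 0 := by linarith [ht.2]
  field_simp
  ring

lemma contDiff_si {n : ℕ∞ω} : ContDiff ℝ n si := by
  unfold si
  exact (contDiff_const.add (Real.contDiff_exp.comp contDiff_neg)).inv fun x => (den_pos x).ne'

lemma si_neg_inv {y : ℝ} (hy : 0 < y) : si (-(E y)⁻¹) = qq y := by
  unfold si qq T
  rw [E_of_pos (E_pos hy), neg_neg]
  have h1 := (Real.exp_pos ((E y)⁻¹)).ne'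
  have h2 : (1 : ℝ) + Real.exp ((E y)⁻¹) ≠ 0 := by positivity
  rw [Real.exp_neg]
  field_simp
  ring

lemma si_inv {y : ℝ} (hy : 0 < y) : si ((E y)⁻¹) = 1 - qq y := by
  rw [← si_neg_inv hy, one_sub_si, neg_neg]

/-- increasing `C^{n+1}` diffeomorphisms of `[0,1]` -/
structure Inc (n : ℕ) (f : ℝ → ℝ) : Prop where
  smooth : ContDiffOn ℝ (n + 1 : ℕ) f (Icc 0 1)
  zero : f 0 = 0
  one : f 1 = 1
  mono : StrictMonoOn f (Icc 0 1)
  d0 : 0 < derivWithin f (Icc 0 1) 0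
  d1 : 0 < derivWithin f (Icc 0 1) 1

/-- reflection -/
def refl (f : ℝ → ℝ) (q : ℝ) : ℝ := 1 - f (1 - q)

lemma refl_Icc : MapsTo (fun q : ℝ => 1 - q) (Icc 0 1) (Icc 0 1) := by
  intro q hq
  exact ⟨by linarith [hq.2], by linarith [hq.1]⟩

lemma derivWithin_refl {f : ℝ → ℝ} (hf : DifferentiableOn ℝ f (Icc 0 1)) {q : ℝ} (hq : q ∈ Icc (0 : ℝ) 1) :
    derivWithin (refl f) (Icc 0 1) q = derivWithin f (Icc 0 1) (1 - q) := by
  have hu : UniqueDiffOn ℝ (Icc (0 : ℝ) 1) := uniqueDiffOn_Icc zero_lt_one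
  have h1 := (hf (1 - q) (refl_Icc hq)).hasDerivWithinAt
  have h2 : HasDerivWithinAt (fun q : ℝ => 1 - q) (-1) (Icc 0 1) q :=
    ((hasDerivAt_id q).const_sub 1).hasDerivWithinAt
  have h3 := (h1.comp q h2 refl_Icc).const_sub 1
  have h4 : HasDerivWithinAt (refl f) (derivWithin f (Icc 0 1) (1 - q)) (Icc 0 1) q := by
    refine HasDerivWithinAt.congr_deriv h3 ?_
    ring
  exact h4.derivWithin (hu q hq)

lemma Inc.refl {n : ℕ} {f : ℝ → ℝ} (h : Inc n f) : Inc n (refl f) := by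
  have hd : DifferentiableOn ℝ f (Icc 0 1) := h.smooth.differentiableOn (by simp)
  refine ⟨?_, ?_, ?_, ?_, ?_, ?_⟩
  · exact contDiffOn_const.sub (h.smooth.comp (contDiff_const.sub contDiff_id).contDiffOn refl_Icc)
  · simp [Helper208_C1.refl, h.one]
  · simp [Helper208_C1.refl, h.zero]
  · intro a ha b hb hab
    have := h.mono (refl_Icc hb) (refl_Icc ha) (by linarith : 1 - b < 1 - a)
    unfold Helper208_C1.refl
    beta_reduce at this
    linarith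
  · rw [derivWithin_refl hd ⟨le_rfl, zero_le_one⟩, sub_zero]
    exact h.d1
  · rw [derivWithin_refl hd ⟨zero_le_one, le_rfl⟩, sub_self]
    exact h.d0

lemma Inc.pos {n : ℕ} {f : ℝ → ℝ} (h : Inc n f) {x : ℝ} (hx : x ∈ Ioc (0 : ℝ) 1) : 0 < f x := by
  have := h.mono ⟨le_rfl, zero_le_one⟩ ⟨hx.1.le, hx.2⟩ hx.1
  rwa [h.zero] at this

lemma Inc.lt_one {n : ℕ} {f : ℝ → ℝ} (h : Inc n f) {x : ℝ} (hx : x ∈ Ico (0 : ℝ) 1) : f x < 1 := by
  have := h.mono ⟨hx.1, hx.2.le⟩ ⟨zero_le_one, le_rfl⟩ hx.2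
  rwa [h.one] at this

/-- the conjugated map on the line -/
def FF (f : ℝ → ℝ) (x : ℝ) : ℝ := lg (f (si x))

/-- the map in the coordinate at infinity -/
def GG (f : ℝ → ℝ) (y : ℝ) : ℝ := Gp (refl f) y - Gp f (-y) - y

lemma contDiff_FF {n : ℕ} {f : ℝ → ℝ} (h : Inc n f) : ContDiff ℝ (n + 1 : ℕ) (FF f) := by
  rw [contDiff_iff_contDiffAt]
  intro x
  have hm := si_mem x
  have h1 : ContDiffAt ℝ (n + 1 : ℕ) f (si x) := h.smooth.contDiffAt (Icc_mem_nhds hm.1 hm.2)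
  have h2 : ContDiffAt ℝ (n + 1 : ℕ) (fun x => f (si x)) x := h1.comp x contDiff_si.contDiffAt
  have p1 : 0 < f (si x) := h.pos ⟨hm.1, hm.2.le⟩
  have p2 : 0 < 1 - f (si x) := by linarith [h.lt_one ⟨hm.1.le, hm.2⟩]
  exact (h2.div (contDiffAt_const.sub h2) p2.ne').log (div_pos p1 p2).ne'

lemma contDiffAt_GG {n : ℕ} {f : ℝ → ℝ} (h : Inc n f) : ContDiffAt ℝ (n + 1 : ℕ) (GG f) 0 := by
  have h1 := (Gp_contDiffAt n h.refl.smooth h.refl.zero h.refl.d0 (fun x hx => h.refl.pos ⟨hx.1, hx.2.le⟩)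
    (fun x hx => h.refl.lt_one hx)).1
  have h2 := (Gp_contDiffAt n h.smooth h.zero h.d0 (fun x hx => h.pos ⟨hx.1, hx.2.le⟩)
    (fun x hx => h.lt_one hx)).1
  have h3 : ContDiffAt ℝ (n + 1 : ℕ) (fun y : ℝ => Gp f (-y)) 0 := by
    refine ContDiffAt.comp (g := Gp f) (f := fun y : ℝ => -y) 0 ?_ contDiffAt_id.neg
    rw [neg_zero]
    exact h2
  exact (h1.sub h3).sub contDiffAt_id

lemma GG_spec {n : ℕ} {f : ℝ → ℝ} (h : Inc n f) :
    ∀ᶠ y in 𝓝 (0 : ℝ), y ≠ 0 → GG f y ≠ 0 ∧ FF f (ss y)⁻¹ = (ss (GG f y))⁻¹ := by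
  have h1 := (Gp_contDiffAt n h.refl.smooth h.refl.zero h.refl.d0 (fun x hx => h.refl.pos ⟨hx.1, hx.2.le⟩)
    (fun x hx => h.refl.lt_one hx)).2
  have h2 := (Gp_contDiffAt n h.smooth h.zero h.d0 (fun x hx => h.pos ⟨hx.1, hx.2.le⟩)
    (fun x hx => h.lt_one hx)).2
  have h2' : ∀ᶠ y in 𝓝 (0 : ℝ), 0 < -y → 0 < Gp f (-y) ∧ 0 < Real.log ((1 - f (qq (-y))) / f (qq (-y))) := by
    have : Tendsto (fun y : ℝ => -y) (𝓝 0) (𝓝 0) := by
      have := (continuous_neg (G := ℝ)).tendsto 0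
      rwa [neg_zero] at this
    exact this.eventually h2
  filter_upwards [h1, h2'] with y hy1 hy2 hy
  have key : ∀ (g : ℝ → ℝ) (y : ℝ), 0 < y → 0 < Gp g y → 0 < Real.log ((1 - g (qq y)) / g (qq y)) →
      Real.log ((1 - g (qq y)) / g (qq y)) = (ss (Gp g y))⁻¹ := by
    intro g y hy hg hl
    rw [ss_of_pos hg, Gp, if_pos hy, inv_inv, Real.exp_neg, inv_inv, Real.exp_log hl]
  rcases hy.lt_or_gt with hneg | hpos
  · have hy' : 0 < -y := neg_pos.2 hneg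
    obtain ⟨a1, a2⟩ := hy2 hy'
    have e1 : GG f y = - Gp f (-y) := by
      unfold GG
      have : Gp (refl f) y = y := by simp [Gp, not_lt.2 hneg.le]
      rw [this]
      ring
    rw [e1]
    refine ⟨by linarith, ?_⟩
    rw [ss_neg, inv_neg, ← key f (-y) hy' a1 a2]
    have e2 : (ss y)⁻¹ = -(E (-y))⁻¹ := by
      have : ss y = - ss (-y) := by rw [ss_neg, neg_neg]
      rw [this, ss_of_pos hy', E_of_pos hy', inv_neg]
    unfold FF lg
    rw [e2, si_neg_inv hy']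
    rw [← Real.log_inv, inv_div]
  · obtain ⟨a1, a2⟩ := hy1 hpos
    have e1 : GG f y = Gp (refl f) y := by
      unfold GG
      have : Gp f (-y) = -y := by simp [Gp, hpos.le]
      rw [this]
      ring
    rw [e1]
    refine ⟨a1.ne', ?_⟩
    rw [← key (refl f) y hpos a1 a2]
    have e2 : (ss y)⁻¹ = (E y)⁻¹ := by rw [ss_of_pos hpos, E_of_pos hpos]
    unfold FF lg refl
    rw [e2, si_inv hpos]
    congr 2
    ring

lemma contMDiff_inc {n : ℕ} {f : ℝ → ℝ} (h : Inc n f) (Φ : OnePoint ℝ → OnePoint ℝ)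
    (hinf : Φ OnePoint.infty = OnePoint.infty)
    (hΦ : ∀ x : ℝ, Φ (x : OnePoint ℝ) = (FF f x : OnePoint ℝ)) :
    ContMDiff (𝓡∂ 1) (𝓡∂ 1) ((n + 1 : ℕ) : ℕ∞ω) Φ := by
  refine contMDiff_of Φ (FF f) (GG f) _ hΦ hinf (contDiff_FF h) ?_ (contDiffAt_GG h)
  filter_upwards [GG_spec h] with y hy
  by_cases h0 : y = 0
  · subst h0
    have : GG f 0 = 0 := by simp [GG, Gp]
    rw [this, cc_true_zero, hinf]
  · obtain ⟨a1, a2⟩ := hy h0
    rw [cc_true_of_ne h0, cc_true_of_ne a1, hΦ, a2]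

lemma contMDiff_dec {n : ℕ} {f : ℝ → ℝ} (h : Inc n (fun t => 1 - f t)) (Φ : OnePoint ℝ → OnePoint ℝ)
    (hinf : Φ OnePoint.infty = OnePoint.infty)
    (hΦ : ∀ x : ℝ, Φ (x : OnePoint ℝ) = (FF f x : OnePoint ℝ)) :
    ContMDiff (𝓡∂ 1) (𝓡∂ 1) ((n + 1 : ℕ) : ℕ∞ω) Φ := by
  have hFF : ∀ x, FF f x = - FF (fun t => 1 - f t) x := by
    intro x
    unfold FF lg
    rw [← Real.log_inv, inv_div]
    congr 2
    ring
  have hFF' : FF f = fun x => - FF (fun t => 1 - f t) x := funext hFF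
  refine contMDiff_of Φ (FF f) (fun y => - GG (fun t => 1 - f t) y) _ hΦ hinf ?_ ?_ (contDiffAt_GG h).neg
  · rw [hFF']
    exact (contDiff_FF h).neg
  filter_upwards [GG_spec h] with y hy
  by_cases h0 : y = 0
  · subst h0
    have : - GG (fun t => 1 - f t) 0 = 0 := by simp [GG, Gp]
    rw [this, cc_true_zero, hinf]
  · obtain ⟨a1, a2⟩ := hy h0
    rw [cc_true_of_ne h0, cc_true_of_ne (neg_ne_zero.2 a1), hΦ, hFF, a2, ss_neg, inv_neg]

end

end Pool.Agent.Helper208_C1
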