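import Pool.Agent.Helper208_C1.One

/-! The circle as the one-point compactification of the real line, with the smooth structure given by the
coordinates `x` and `y`, `x = e^{1/y}` for `y > 0` and `x = - e^{-1/y}` for `y < 0`, modelled on the half line (all charts take values in the open half line). -/

open Set Filter Topology OnePoint
open scoped Manifold ContDiff

namespace Pool.Agent.Helper208_C1

noncomputable section

/-- the smooth open embedding `x ↦ e^x` of the line in the half line, as a partial homeomorphism -/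
def J : OpenPartialHomeomorph ℝ (EuclideanHalfSpace 1) where
  toFun x := ⟨WithLp.toLp 2 (fun _ => Real.exp x), (Real.exp_pos x).le⟩
  invFun u := Real.log (u.1 0)
  source := univ
  target := {u | 0 < u.1 0}
  map_source' x _ := Real.exp_pos x
  map_target' _ _ := mem_univ _
  left_inv' x _ := Real.log_exp x
  right_inv' u hu := by
    apply Subtype.ext
    ext i
    rw [Subsingleton.elim i 0]
    exact Real.exp_log hu
  open_source := isOpen_univ
  open_target := by
    have : Continuous fun u : EuclideanHalfSpace 1 => u.1 0 := by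
      have h := (PiLp.continuous_apply 2 (fun _ : Fin 1 => ℝ) 0)
      exact h.comp continuous_subtype_val
    exact isOpen_lt continuous_const this
  continuousOn_toFun := by
    apply Continuous.continuousOn
    refine Continuous.subtype_mk ?_ _
    exact (PiLp.continuous_toLp 2 _).comp (continuous_pi fun _ => Real.continuous_exp)
  continuousOn_invFun := by
    have : Continuous fun u : EuclideanHalfSpace 1 => u.1 0 := by
      have h := (PiLp.continuous_apply 2 (fun _ : Fin 1 => ℝ) 0)
      exact h.comp continuous_subtype_val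
    intro u hu
    exact (this.continuousAt.log hu.ne').continuousWithinAt

/-- inversion on the circle -/
def iota : OnePoint ℝ → OnePoint ℝ
  | OnePoint.infty => ((0 : ℝ) : OnePoint ℝ)
  | (x : ℝ) => if x = 0 then OnePoint.infty else ((x⁻¹ : ℝ) : OnePoint ℝ)

@[simp] lemma iota_infty : iota OnePoint.infty = ((0 : ℝ) : OnePoint ℝ) := rfl

lemma iota_coe (x : ℝ) :
    iota (x : OnePoint ℝ) = if x = 0 then OnePoint.infty else ((x⁻¹ : ℝ) : OnePoint ℝ) := rfl

@[simp] lemma iota_zero : iota ((0 : ℝ) : OnePoint ℝ) = OnePoint.infty := by simp [iota_coe]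

lemma iota_coe_ne {x : ℝ} (hx : x ≠ 0) : iota (x : OnePoint ℝ) = ((x⁻¹ : ℝ) : OnePoint ℝ) := by
  simp [iota_coe, hx]

lemma iota_iota (x : OnePoint ℝ) : iota (iota x) = x := by
  induction x using OnePoint.rec with
  | infty => simp
  | coe x =>
    by_cases hx : x = 0
    · subst hx; simp
    · rw [iota_coe_ne hx, iota_coe_ne (inv_ne_zero hx), inv_inv]

lemma coclosedCompact_real : coclosedCompact ℝ = Bornology.cobounded ℝ := by
  rw [coclosedCompact_eq_cocompact, Metric.cobounded_eq_cocompact]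

lemma continuous_iota : Continuous iota := by
  rw [continuous_iff_continuousAt]
  intro x
  induction x using OnePoint.rec with
  | infty =>
    rw [OnePoint.continuousAt_infty']
    have h1 : Tendsto (fun x : ℝ => ((x⁻¹ : ℝ) : OnePoint ℝ)) (coclosedCompact ℝ)
        (𝓝 (((0 : ℝ) : OnePoint ℝ))) := by
      refine (OnePoint.continuous_coe.tendsto (0 : ℝ)).comp ?_
      rw [coclosedCompact_real]
      exact tendsto_inv₀_cobounded
    refine h1.congr' ?_
    have h2 : ∀ᶠ x : ℝ in coclosedCompact ℝ, x ≠ 0 := by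
      rw [coclosedCompact_eq_cocompact]
      exact (isCompact_singleton (x := (0 : ℝ))).compl_mem_cocompact
    filter_upwards [h2] with x hx
    simp [Function.comp, iota_coe_ne hx]
  | coe x =>
    rw [OnePoint.continuousAt_coe]
    by_cases hx : x = 0
    · subst hx
      rw [continuousAt_iff_punctured_nhds]
      have h1 : Tendsto (fun x : ℝ => ((x⁻¹ : ℝ) : OnePoint ℝ)) (𝓝[≠] 0) (𝓝 OnePoint.infty) := by
        refine OnePoint.tendsto_coe_infty.comp ?_
        rw [coclosedCompact_real]
        exact tendsto_inv₀_nhdsNE_zero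
      have e : (iota ∘ (OnePoint.some : ℝ → OnePoint ℝ)) 0 = OnePoint.infty := by simp [Function.comp]
      rw [e]
      refine h1.congr' ?_
      filter_upwards [self_mem_nhdsWithin] with y hy
      simp [Function.comp, iota_coe_ne hy]
    · have h1 : ContinuousAt (fun x : ℝ => ((x⁻¹ : ℝ) : OnePoint ℝ)) x :=
        ContinuousAt.comp (g := (OnePoint.some : ℝ → OnePoint ℝ)) OnePoint.continuous_coe.continuousAt
          (continuousAt_inv₀ hx)
      refine h1.congr ?_
      filter_upwards [isOpen_ne.mem_nhds hx] with y hy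
      simp [Function.comp, iota_coe_ne hy]

/-- inversion as a homeomorphism -/
def iotaH : OnePoint ℝ ≃ₜ OnePoint ℝ where
  toFun := iota
  invFun := iota
  left_inv := iota_iota
  right_inv := iota_iota
  continuous_toFun := continuous_iota
  continuous_invFun := continuous_iota

/-- the flat odd coordinate change `e^{-1/y}` for `y > 0`, `-e^{1/y}` for `y < 0` -/
def ss (y : ℝ) : ℝ := E y - E (-y)

lemma ss_of_pos {y : ℝ} (hy : 0 < y) : ss y = Real.exp (-y⁻¹) := by
  unfold ss
  rw [E_of_pos hy, E_of_nonpos (by linarith : -y ≤ 0), sub_zero]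

lemma ss_neg (y : ℝ) : ss (-y) = - ss y := by
  unfold ss
  rw [neg_neg]
  ring

@[simp] lemma ss_zero : ss 0 = 0 := by simp [ss]

lemma ss_pos {y : ℝ} (hy : 0 < y) : 0 < ss y := by
  rw [ss_of_pos hy]
  exact Real.exp_pos _

lemma ss_lt_one {y : ℝ} (hy : 0 < y) : ss y < 1 := by
  rw [ss_of_pos hy, Real.exp_lt_one_iff]
  simpa using hy

lemma ss_ne_zero {y : ℝ} (hy : y ≠ 0) : ss y ≠ 0 := by
  rcases hy.lt_or_gt with h | h
  · have := ss_pos (neg_pos.2 h)
    rw [ss_neg] at this
    linarith
  · exact (ss_pos h).ne'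

lemma contDiff_ss {n : ℕ∞} : ContDiff ℝ n ss := by
  unfold ss
  exact contDiff_E.sub (contDiff_E.comp contDiff_neg)

lemma ss_strictMono : StrictMono ss := by
  have hpp : ∀ a b : ℝ, 0 ≤ a → a < b → ss a < ss b := by
    intro a b ha hab
    rcases ha.eq_or_lt with rfl | ha
    · rw [ss_zero]; exact ss_pos hab
    · rw [ss_of_pos ha, ss_of_pos (ha.trans hab), Real.exp_lt_exp, neg_lt_neg_iff]
      exact inv_strictAnti₀ ha hab
  intro a b hab
  rcases le_or_gt 0 a with h | h
  · exact hpp a b h hab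
  · rcases le_or_gt 0 b with h' | h'
    · have h1 : 0 < ss (-a) := ss_pos (neg_pos.2 h)
      rw [ss_neg] at h1
      have h2 : 0 ≤ ss b := by
        rcases h'.eq_or_lt with rfl | h''
        · rw [ss_zero]
        · exact (ss_pos h'').le
      linarith
    · have h3 := hpp (-b) (-a) (by linarith) (by linarith)
      rw [ss_neg, ss_neg] at h3
      linarith

lemma ss_open : IsOpenEmbedding ss := by
  have hc : Continuous ss := (contDiff_ss (n := 0)).continuous
  have hr : IsOpen (range ss) := by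
    rw [isOpen_iff_mem_nhds]
    rintro z ⟨y, rfl⟩
    have h1 : Ioo (ss (y - 1)) (ss (y + 1)) ∈ 𝓝 (ss y) :=
      Ioo_mem_nhds (ss_strictMono (by linarith)) (ss_strictMono (by linarith))
    refine mem_of_superset h1 ?_
    intro w hw
    have h2 := intermediate_value_Ioo (by linarith : y - 1 ≤ y + 1) hc.continuousOn hw
    obtain ⟨v, -, hv⟩ := h2
    exact ⟨v, hv⟩
  have hoc : OrdConnected (range ss) := (isPreconnected_range hc).ordConnected
  exact ⟨ss_strictMono.isEmbedding_of_ordConnected hoc, hr⟩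

/-- the two coordinates, `i = false` for `x` and `i = true` for `y` -/
def cc : Bool → ℝ → OnePoint ℝ
  | false => fun x => (x : OnePoint ℝ)
  | true => fun x => iota ((ss x : ℝ) : OnePoint ℝ)

lemma cc_open (i : Bool) : IsOpenEmbedding (cc i) := by
  cases i
  · exact OnePoint.isOpenEmbedding_coe
  · exact (iotaH.isOpenEmbedding.comp OnePoint.isOpenEmbedding_coe).comp ss_open

lemma cc_true_of_ne {y : ℝ} (hy : y ≠ 0) : cc true y = (((ss y)⁻¹ : ℝ) : OnePoint ℝ) := by
  show iota ((ss y : ℝ) : OnePoint ℝ) = _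
  rw [iota_coe_ne (ss_ne_zero hy)]

lemma cc_true_zero : cc true 0 = OnePoint.infty := by
  show iota ((ss 0 : ℝ) : OnePoint ℝ) = _
  rw [ss_zero, iota_zero]

/-- the coordinates as partial homeomorphisms -/
def cp (i : Bool) : OpenPartialHomeomorph ℝ (OnePoint ℝ) := (cc_open i).toOpenPartialHomeomorph (cc i)

/-- the two charts -/
def ch (i : Bool) : OpenPartialHomeomorph (OnePoint ℝ) (EuclideanHalfSpace 1) := (cp i).symm ≫ₕ J

lemma ch_source (i : Bool) : (ch i).source = range (cc i) := by
  simp [ch, cp, J]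

open Classical in
instance instCS : ChartedSpace (EuclideanHalfSpace 1) (OnePoint ℝ) where
  atlas := {e | ∃ i, e = ch i}
  chartAt z := ch (decide (z = OnePoint.infty))
  mem_chart_source z := by
    rw [ch_source]
    induction z using OnePoint.rec with
    | infty => exact ⟨0, by simp [cc]⟩
    | coe x => exact ⟨x, by simp [cc]⟩
  chart_mem_atlas z := ⟨_, rfl⟩

open Classical in
lemma chartAt_coe (x : ℝ) : chartAt (EuclideanHalfSpace 1) (x : OnePoint ℝ) = ch false := by
  show ch (decide ((x : OnePoint ℝ) = OnePoint.infty)) = ch false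
  simp

open Classical in
lemma chartAt_infty : chartAt (EuclideanHalfSpace 1) (OnePoint.infty : OnePoint ℝ) = ch true := by
  show ch (decide ((OnePoint.infty : OnePoint ℝ) = OnePoint.infty)) = ch true
  simp

lemma ch_apply (i : Bool) (x : ℝ) : ch i (cc i x) = J x := by
  show J ((cp i).symm (cc i x)) = J x
  congr 1
  exact (cp i).left_inv (mem_univ x)

lemma ch_symm_apply (i : Bool) (u : EuclideanHalfSpace 1) : (ch i).symm u = cc i (Real.log (u.1 0)) := rfl

/-- the local representative of a map in the charts -/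
lemma rep (i i' : Bool) (Φ : OnePoint ℝ → OnePoint ℝ) (F : ℝ → ℝ) (x : ℝ) (n : ℕ∞ω)
    (h : ∀ᶠ s in 𝓝 x, Φ (cc i s) = cc i' (F s)) (hF : ContDiffAt ℝ n F x) :
    ContDiffAt ℝ n (fun z => (𝓡∂ 1) (ch i' (Φ ((ch i).symm ((𝓡∂ 1).symm z))))) ((𝓡∂ 1) (J x)) := by
  have hx0 : ((𝓡∂ 1) (J x)) 0 = Real.exp x := rfl
  have hc0 : Continuous fun z : EuclideanSpace ℝ (Fin 1) => z 0 := PiLp.continuous_apply 2 (fun _ : Fin 1 => ℝ) 0
  have e1 : ∀ᶠ z : EuclideanSpace ℝ (Fin 1) in 𝓝 ((𝓡∂ 1) (J x)), 0 < z 0 := by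
    refine hc0.continuousAt.eventually_const_lt ?_
    beta_reduce
    rw [hx0]
    exact Real.exp_pos x
  have e2 : ∀ᶠ z : EuclideanSpace ℝ (Fin 1) in 𝓝 ((𝓡∂ 1) (J x)),
      Φ (cc i (Real.log (z 0))) = cc i' (F (Real.log (z 0))) := by
    have ht : Tendsto (fun z : EuclideanSpace ℝ (Fin 1) => Real.log (z 0)) (𝓝 ((𝓡∂ 1) (J x))) (𝓝 x) := by
      have h1 : ContinuousAt (fun z : EuclideanSpace ℝ (Fin 1) => Real.log (z 0)) ((𝓡∂ 1) (J x)) := by
        refine hc0.continuousAt.log ?_
        rw [hx0]
        exact (Real.exp_pos x).ne'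
      have h2 := h1.tendsto
      rw [hx0, Real.log_exp] at h2
      exact h2
    exact ht.eventually h
  have e3 : (fun z => (𝓡∂ 1) (ch i' (Φ ((ch i).symm ((𝓡∂ 1).symm z))))) =ᶠ[𝓝 ((𝓡∂ 1) (J x))]
      fun z => WithLp.toLp 2 (fun _ : Fin 1 => Real.exp (F (Real.log (z 0)))) := by
    filter_upwards [e1, e2] with z hz1 hz2
    rw [ch_symm_apply]
    have : ((𝓡∂ 1).symm z).1 0 = z 0 := by
      rw [modelWithCornersEuclideanHalfSpace_symm_apply]
      simp [hz1.le]
    rw [this, hz2, ch_apply]
    rfl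
  refine ContDiffAt.congr_of_eventuallyEq ?_ e3
  rw [contDiffAt_euclidean]
  intro _
  have h0 : ContDiffAt ℝ n (fun z : EuclideanSpace ℝ (Fin 1) => z 0) ((𝓡∂ 1) (J x)) := by fun_prop
  have h1 : ContDiffAt ℝ n (fun z : EuclideanSpace ℝ (Fin 1) => Real.log (z 0)) ((𝓡∂ 1) (J x)) := by
    refine h0.log ?_
    rw [hx0]
    exact (Real.exp_pos x).ne'
  have h2 : ContDiffAt ℝ n (fun z : EuclideanSpace ℝ (Fin 1) => F (Real.log (z 0))) ((𝓡∂ 1) (J x)) := by
    refine ContDiffAt.comp ((𝓡∂ 1) (J x)) (g := F) (f := fun z : EuclideanSpace ℝ (Fin 1) => Real.log (z 0)) ?_ h1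
    rw [hx0, Real.log_exp]
    exact hF
  exact h2.exp

instance instIM (n : ℕ∞) : IsManifold (𝓡∂ 1) n (OnePoint ℝ) := by
  apply isManifold_of_contDiffOn
  rintro e e' ⟨i, rfl⟩ ⟨i', rfl⟩ z hz
  obtain ⟨hz1, u, rfl⟩ := hz
  rw [mem_preimage, ModelWithCorners.left_inv, OpenPartialHomeomorph.trans_source, mem_inter_iff,
    mem_preimage, OpenPartialHomeomorph.symm_source, ch_source, ch_symm_apply] at hz1
  obtain ⟨hu, y, hy⟩ := hz1
  have hu0 : 0 < u.1 0 := by
    have : u ∈ J.target := by
      have h := hu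
      rw [ch, OpenPartialHomeomorph.trans_target] at h
      exact h.1
    exact this
  have hJ : J (Real.log (u.1 0)) = u := J.right_inv hu0
  have key : ∃ F : ℝ → ℝ, (∀ᶠ s in 𝓝 (Real.log (u.1 0)), cc i s = cc i' (F s)) ∧
      ContDiffAt ℝ n F (Real.log (u.1 0)) := by
    by_cases hii : i = i'
    · subst hii
      exact ⟨id, Eventually.of_forall fun _ => rfl, contDiffAt_id⟩
    · cases i <;> cases i' <;> simp only [not_true_eq_false, reduceCtorEq, not_false_eq_true] at hii
      · -- from `x` to `y`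
        have hy0 : y ≠ 0 := by
          rintro rfl
          rw [cc_true_zero] at hy
          exact OnePoint.infty_ne_coe _ hy
        rw [cc_true_of_ne hy0] at hy
        have hy1 : (ss y)⁻¹ = Real.log (u.1 0) := OnePoint.coe_injective hy
        rw [← hy1]
        have aux : ∀ y : ℝ, 0 < y → 1 < (ss y)⁻¹ := fun y hy =>
          (one_lt_inv₀ (ss_pos hy)).2 (ss_lt_one hy)
        rcases hy0.lt_or_gt with hneg | hpos
        · have h1 := aux (-y) (by linarith)
          rw [ss_neg, inv_neg] at h1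
          refine ⟨fun s => -(Real.log (-s))⁻¹, ?_, ?_⟩
          · filter_upwards [Iio_mem_nhds (by linarith : (ss y)⁻¹ < -1)] with s hs
            have hs' : s < -1 := hs
            have hl : 0 < Real.log (-s) := Real.log_pos (by linarith)
            have hl' : 0 < (Real.log (-s))⁻¹ := inv_pos.2 hl
            rw [cc_true_of_ne (by linarith), ss_neg, ss_of_pos hl', inv_inv, Real.exp_neg,
              Real.exp_log (by linarith)]
            show ((s : ℝ) : OnePoint ℝ) = _
            congr 1
            rw [inv_neg, inv_inv, neg_neg]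
          · refine ContDiffAt.neg (ContDiffAt.inv (ContDiffAt.log contDiffAt_id.neg ?_) ?_)
            · exact (by linarith : (0 : ℝ) < -(ss y)⁻¹).ne'
            · exact (Real.log_pos (by linarith : (1 : ℝ) < -(ss y)⁻¹)).ne'
        · have h1 := aux y hpos
          refine ⟨fun s => (Real.log s)⁻¹, ?_, ?_⟩
          · filter_upwards [Ioi_mem_nhds h1] with s hs
            have hs' : 1 < s := hs
            have hl : 0 < Real.log s := Real.log_pos hs'
            have hl' : 0 < (Real.log s)⁻¹ := inv_pos.2 hl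
            rw [cc_true_of_ne hl'.ne', ss_of_pos hl', inv_inv, Real.exp_neg,
              Real.exp_log (by linarith), inv_inv]
            rfl
          · refine ContDiffAt.inv (ContDiffAt.log contDiffAt_id ?_) ?_
            · exact (by linarith : (0 : ℝ) < (ss y)⁻¹).ne'
            · exact (Real.log_pos h1).ne'
      · -- from `y` to `x`
        have hne : Real.log (u.1 0) ≠ 0 := by
          intro h0
          rw [h0, cc_true_zero] at hy
          exact OnePoint.coe_ne_infty _ hy
        refine ⟨fun s => (ss s)⁻¹, ?_, ?_⟩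
        · filter_upwards [isOpen_ne.mem_nhds hne] with s hs
          rw [cc_true_of_ne hs]
          rfl
        · exact (contDiff_ss (n := n)).contDiffAt.inv (ss_ne_zero hne)
  obtain ⟨F, hF1, hF2⟩ := key
  have h := rep i i' id F (Real.log (u.1 0)) n hF1 hF2
  rw [hJ] at h
  exact h.contDiffWithinAt

/-- a criterion of smoothness -/
lemma contMDiffAt_of (i i' : Bool) (Φ : OnePoint ℝ → OnePoint ℝ) (F : ℝ → ℝ) (x : ℝ) (n : ℕ∞ω)
    (hi : chartAt (EuclideanHalfSpace 1) (cc i x) = ch i)
    (hi' : chartAt (EuclideanHalfSpace 1) (Φ (cc i x)) = ch i')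
    (h : ∀ᶠ s in 𝓝 x, Φ (cc i s) = cc i' (F s)) (hF : ContDiffAt ℝ n F x) :
    ContMDiffAt (𝓡∂ 1) (𝓡∂ 1) n Φ (cc i x) := by
  rw [contMDiffAt_iff]
  constructor
  · have h1 : ContinuousAt (fun s => cc i' (F s)) x :=
      (cc_open i').continuous.continuousAt.comp hF.continuousAt
    have h2 : ContinuousAt (Φ ∘ cc i) x := h1.congr (h.mono fun s hs => hs.symm)
    exact ((cc_open i).continuousAt_iff).1 h2
  · have h3 := rep i i' Φ F x n h hF
    have e : (extChartAt (𝓡∂ 1) (cc i x)) (cc i x) = (𝓡∂ 1) (J x) := by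
      rw [extChartAt, hi, OpenPartialHomeomorph.extend_coe, Function.comp, ch_apply]
    rw [e]
    have e2 : ((extChartAt (𝓡∂ 1) (Φ (cc i x))) ∘ Φ ∘ (extChartAt (𝓡∂ 1) (cc i x)).symm) =
        (fun z => (𝓡∂ 1) (ch i' (Φ ((ch i).symm ((𝓡∂ 1).symm z))))) := by
      rw [extChartAt, extChartAt, hi, hi']
      rfl
    rw [e2]
    exact h3.contDiffWithinAt

lemma contMDiff_of (Φ : OnePoint ℝ → OnePoint ℝ) (F G : ℝ → ℝ) (n : ℕ∞ω)
    (hΦ : ∀ x : ℝ, Φ (x : OnePoint ℝ) = (F x : OnePoint ℝ)) (hinf : Φ OnePoint.infty = OnePoint.infty)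
    (hF : ContDiff ℝ n F) (hG : ∀ᶠ s in 𝓝 (0 : ℝ), Φ (cc true s) = cc true (G s))
    (hG' : ContDiffAt ℝ n G 0) : ContMDiff (𝓡∂ 1) (𝓡∂ 1) n Φ := by
  intro z
  induction z using OnePoint.rec with
  | infty =>
    have h := contMDiffAt_of true true Φ G 0 n (by simp [cc, chartAt_infty])
      (by simp [cc, hinf, chartAt_infty]) hG hG'
    simpa [cc] using h
  | coe x =>
    exact contMDiffAt_of false false Φ F x n (chartAt_coe x) (by
      show chartAt (EuclideanHalfSpace 1) (Φ (x : OnePoint ℝ)) = ch false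
      rw [hΦ]
      exact chartAt_coe _) (Eventually.of_forall hΦ) hF.contDiffAt

end

end Pool.Agent.Helper208_C1
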