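import Pool.Agent.Helper208_C1.Act

/-! Every group acting faithfully by `C^k` diffeomorphisms on `[0,1]` acts faithfully by `C^k` diffeomorphisms on
the circle. -/

open Set Filter Topology
open scoped Manifold ContDiff

namespace Pool.Agent.Helper208_C1

noncomputable section

abbrev II : Type := Icc (0 : ℝ) 1

/-- real version of a self-map of `[0,1]` -/
def rl (φ : II → II) (t : ℝ) : ℝ := (φ (projIcc 0 1 zero_le_one t) : ℝ)

lemma rl_eq (φ : II → II) (z : II) : rl φ z = φ z := by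
  simp [rl]

lemma rl_mem (φ : II → II) (t : ℝ) : rl φ t ∈ Icc (0 : ℝ) 1 := (φ _).2

lemma rl_comp (φ ψ : II → II) (t : ℝ) : rl (φ ∘ ψ) t = rl φ (rl ψ t) := by
  simp [rl]

lemma rl_smooth {n : ℕ∞ω} {φ : II → II} (h : ContMDiff (𝓡∂ 1) (𝓡∂ 1) n φ) : ContDiffOn ℝ n (rl φ) (Icc 0 1) := by
  have h1 : ContMDiff (𝓡∂ 1) 𝓘(ℝ, ℝ) n (fun z : II => ((φ z : II) : ℝ)) :=
    contMDiff_subtypeVal_Icc.comp h
  have h2 := h1.comp_contMDiffOn (contMDiffOn_projIcc (x := (0 : ℝ)) (y := 1) (n := n))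
  exact h2.contDiffOn

lemma rl_continuous {n : ℕ∞ω} {φ : II → II} (h : ContMDiff (𝓡∂ 1) (𝓡∂ 1) n φ) : Continuous φ := h.continuous

/-- a permutation smooth with its inverse is increasing or decreasing with nonvanishing derivative -/
lemma inc_or_dec {n : ℕ} (φ ψ : II → II) (hφ : ContMDiff (𝓡∂ 1) (𝓡∂ 1) ((n + 1 : ℕ) : ℕ∞ω) φ)
    (hψ : ContMDiff (𝓡∂ 1) (𝓡∂ 1) ((n + 1 : ℕ) : ℕ∞ω) ψ) (h1 : ∀ z, φ (ψ z) = z) (h2 : ∀ z, ψ (φ z) = z) :
    Inc n (rl φ) ∨ Inc n (fun t => 1 - rl φ t) := by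
  have hu : UniqueDiffOn ℝ (Icc (0 : ℝ) 1) := uniqueDiffOn_Icc zero_lt_one
  have s1 := rl_smooth hφ
  have s2 := rl_smooth hψ
  have d1 : DifferentiableOn ℝ (rl φ) (Icc 0 1) := s1.differentiableOn (by simp)
  have d2 : DifferentiableOn ℝ (rl ψ) (Icc 0 1) := s2.differentiableOn (by simp)
  have inv1 : ∀ t ∈ Icc (0 : ℝ) 1, rl ψ (rl φ t) = t := by
    intro t ht
    rw [← rl_comp]
    have := rl_eq (ψ ∘ φ) ⟨t, ht⟩
    rw [this]
    simp [h2]
  have inv2 : ∀ t ∈ Icc (0 : ℝ) 1, rl φ (rl ψ t) = t := by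
    intro t ht
    rw [← rl_comp]
    have := rl_eq (φ ∘ ψ) ⟨t, ht⟩
    rw [this]
    simp [h1]
  have hinj : InjOn (rl φ) (Icc 0 1) := by
    intro a ha b hb hab
    rw [← inv1 a ha, ← inv1 b hb, hab]
  have m0 : (0 : ℝ) ∈ Icc (0 : ℝ) 1 := ⟨le_rfl, zero_le_one⟩
  have m1 : (1 : ℝ) ∈ Icc (0 : ℝ) 1 := ⟨zero_le_one, le_rfl⟩
  -- nonvanishing derivative
  have hne : ∀ t ∈ Icc (0 : ℝ) 1, derivWithin (rl φ) (Icc 0 1) t ≠ 0 := by
    intro t ht h0
    have a1 := (d1 t ht).hasDerivWithinAt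
    have a2 := (d2 (rl φ t) (rl_mem φ t)).hasDerivWithinAt
    have a3 := a2.comp t a1 (fun x _ => rl_mem φ x)
    have a4 : HasDerivWithinAt (fun x => x) (derivWithin (rl ψ) (Icc 0 1) (rl φ t) *
        derivWithin (rl φ) (Icc 0 1) t) (Icc 0 1) t := by
      refine a3.congr (fun x hx => ?_) ?_
      · exact (inv1 x hx).symm
      · exact (inv1 t ht).symm
    have a5 : HasDerivWithinAt (fun x : ℝ => x) 1 (Icc 0 1) t := (hasDerivAt_id t).hasDerivWithinAt
    have a6 := (hu t ht).eq_deriv _ a4 a5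
    rw [h0, mul_zero] at a6
    exact zero_ne_one a6
  rcases s1.continuousOn.strictMonoOn_of_injOn_Icc' zero_le_one hinj with hm | hm
  · left
    have z0 : rl φ 0 = 0 := by
      have b1 := inv2 0 m0
      have b2 := hm.monotoneOn m0 (rl_mem ψ 0) (rl_mem ψ 0).1
      rw [b1] at b2
      exact le_antisymm b2 (rl_mem φ 0).1
    have z1 : rl φ 1 = 1 := by
      have b1 := inv2 1 m1
      have b2 := hm.monotoneOn (rl_mem ψ 1) m1 (rl_mem ψ 1).2
      rw [b1] at b2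
      exact le_antisymm (rl_mem φ 1).2 b2
    have hnn : ∀ t ∈ Icc (0 : ℝ) 1, 0 < derivWithin (rl φ) (Icc 0 1) t := by
      intro t ht
      have := hm.monotoneOn.derivWithin_nonneg (x := t)
      exact lt_of_le_of_ne this (hne t ht).symm
    exact ⟨s1, z0, z1, hm, hnn 0 m0, hnn 1 m1⟩
  · right
    have z0 : rl φ 0 = 1 := by
      have b1 := inv2 1 m1
      have b2 := hm.antitoneOn m0 (rl_mem ψ 1) (rl_mem ψ 1).1
      rw [b1] at b2
      exact le_antisymm (rl_mem φ 0).2 b2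
    have z1 : rl φ 1 = 0 := by
      have b1 := inv2 0 m0
      have b2 := hm.antitoneOn (rl_mem ψ 0) m1 (rl_mem ψ 0).2
      rw [b1] at b2
      exact le_antisymm b2 (rl_mem φ 1).1
    have hnn : ∀ t ∈ Icc (0 : ℝ) 1, 0 < derivWithin (fun t => 1 - rl φ t) (Icc 0 1) t := by
      intro t ht
      have c1 := hm.antitoneOn.derivWithin_nonpos (x := t)
      have c2 : derivWithin (fun t => 1 - rl φ t) (Icc 0 1) t = - derivWithin (rl φ) (Icc 0 1) t :=
        ((d1 t ht).hasDerivWithinAt.const_sub 1).derivWithin (hu t ht)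
      rw [c2]
      have := lt_of_le_of_ne c1 (hne t ht)
      linarith
    refine ⟨contDiffOn_const.sub s1, by simp [z0], by simp [z1], ?_, hnn 0 m0, hnn 1 m1⟩
    intro a ha b hb hab
    have := hm ha hb hab
    beta_reduce
    linarith

/-- the conjugated map on the circle -/
def Psi (φ : II → II) : OnePoint ℝ → OnePoint ℝ
  | OnePoint.infty => OnePoint.infty
  | (x : ℝ) => ((FF (rl φ) x : ℝ) : OnePoint ℝ)

@[simp] lemma Psi_infty (φ : II → II) : Psi φ OnePoint.infty = OnePoint.infty := rfl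

lemma Psi_coe (φ : II → II) (x : ℝ) : Psi φ (x : OnePoint ℝ) = ((FF (rl φ) x : ℝ) : OnePoint ℝ) := rfl

lemma Psi_smooth {n : ℕ} (φ ψ : II → II) (hφ : ContMDiff (𝓡∂ 1) (𝓡∂ 1) ((n + 1 : ℕ) : ℕ∞ω) φ)
    (hψ : ContMDiff (𝓡∂ 1) (𝓡∂ 1) ((n + 1 : ℕ) : ℕ∞ω) ψ) (h1 : ∀ z, φ (ψ z) = z) (h2 : ∀ z, ψ (φ z) = z) :
    ContMDiff (𝓡∂ 1) (𝓡∂ 1) ((n + 1 : ℕ) : ℕ∞ω) (Psi φ) := by
  rcases inc_or_dec φ ψ hφ hψ h1 h2 with h | h
  · exact contMDiff_inc h _ (Psi_infty φ) (Psi_coe φ)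
  · exact contMDiff_dec h _ (Psi_infty φ) (Psi_coe φ)

/-- the interior is preserved -/
lemma interior_of {n : ℕ} (φ ψ : II → II) (hφ : ContMDiff (𝓡∂ 1) (𝓡∂ 1) ((n + 1 : ℕ) : ℕ∞ω) φ)
    (hψ : ContMDiff (𝓡∂ 1) (𝓡∂ 1) ((n + 1 : ℕ) : ℕ∞ω) ψ) (h1 : ∀ z, φ (ψ z) = z) (h2 : ∀ z, ψ (φ z) = z)
    {t : ℝ} (ht : t ∈ Ioo (0 : ℝ) 1) : rl φ t ∈ Ioo (0 : ℝ) 1 := by
  rcases inc_or_dec φ ψ hφ hψ h1 h2 with h | h
  · exact ⟨h.pos ⟨ht.1, ht.2.le⟩, h.lt_one ⟨ht.1.le, ht.2⟩⟩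
  · have a := h.pos ⟨ht.1, ht.2.le⟩
    have b := h.lt_one ⟨ht.1.le, ht.2⟩
    exact ⟨by linarith, by linarith⟩

lemma Psi_comp (φ ψ : II → II) (h : ∀ t ∈ Ioo (0 : ℝ) 1, rl ψ t ∈ Ioo (0 : ℝ) 1) (z : OnePoint ℝ) :
    Psi (φ ∘ ψ) z = Psi φ (Psi ψ z) := by
  induction z using OnePoint.rec with
  | infty => rfl
  | coe x =>
    rw [Psi_coe, Psi_coe, Psi_coe]
    congr 1
    unfold FF
    rw [rl_comp, si_lg (h _ (si_mem x))]

lemma rl_id {t : ℝ} (ht : t ∈ Icc (0 : ℝ) 1) : rl id t = t := by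
  simp [rl, projIcc_of_mem zero_le_one ht]

lemma Psi_id (z : OnePoint ℝ) : Psi id z = z := by
  induction z using OnePoint.rec with
  | infty => rfl
  | coe x =>
    rw [Psi_coe]
    congr 1
    unfold FF
    rw [rl_id ⟨(si_mem x).1.le, (si_mem x).2.le⟩, lg_si]

/-- transfer of actions -/
theorem transfer_nat (n : ℕ) (G : Type*) [Group G] (ρ : G →* Equiv.Perm II)
    (hs : ∀ g, ContMDiff (𝓡∂ 1) (𝓡∂ 1) ((n + 1 : ℕ) : ℕ∞ω) (ρ g)) :
    (∀ g, ContMDiff (𝓡∂ 1) (𝓡∂ 1) ((n + 1 : ℕ) : ℕ∞ω) (Psi (ρ g))) ∧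
    (∀ g h z, Psi (ρ (g * h)) z = Psi (ρ g) (Psi (ρ h) z)) ∧
    (∀ g, Psi (ρ g) = id → ρ g = 1) := by
  have hi1 : ∀ g z, ρ g (ρ g⁻¹ z) = z := by
    intro g z
    rw [← Equiv.Perm.mul_apply, ← map_mul, mul_inv_cancel, map_one]
    rfl
  have hi2 : ∀ g z, ρ g⁻¹ (ρ g z) = z := by
    intro g z
    rw [← Equiv.Perm.mul_apply, ← map_mul, inv_mul_cancel, map_one]
    rfl
  have hint : ∀ g, ∀ t ∈ Ioo (0 : ℝ) 1, rl (ρ g) t ∈ Ioo (0 : ℝ) 1 := fun g t ht =>
    interior_of (ρ g) (ρ g⁻¹) (hs g) (hs g⁻¹) (hi1 g) (hi2 g) ht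
  refine ⟨fun g => Psi_smooth (ρ g) (ρ g⁻¹) (hs g) (hs g⁻¹) (hi1 g) (hi2 g), ?_, ?_⟩
  · intro g h z
    have : (ρ (g * h) : II → II) = (ρ g) ∘ (ρ h) := by
      rw [map_mul]
      rfl
    rw [this]
    exact Psi_comp _ _ (hint h) z
  · intro g hg
    have h1 : ∀ t ∈ Ioo (0 : ℝ) 1, rl (ρ g) t = t := by
      intro t ht
      have h2 := congrFun hg ((lg t : ℝ) : OnePoint ℝ)
      rw [Psi_coe] at h2
      have h3 : FF (rl (ρ g)) (lg t) = lg t := OnePoint.coe_injective h2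
      unfold FF at h3
      rw [si_lg ht] at h3
      have h4 := congrArg si h3
      rwa [si_lg (hint g t ht), si_lg ht] at h4
    -- by continuity
    have hc : Continuous (fun z : II => ((ρ g z : II) : ℝ)) := continuous_subtype_val.comp (hs g).continuous
    have hd : Dense {z : II | (z : ℝ) ∈ Ioo (0 : ℝ) 1} := by
      intro z
      have hcl : (z : ℝ) ∈ closure (Ioo (0 : ℝ) 1) := by
        rw [closure_Ioo zero_ne_one]
        exact z.2
      have : Topology.IsInducing ((↑) : II → ℝ) := Topology.IsInducing.subtypeVal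
      rw [this.closure_eq_preimage_closure_image]
      show (z : ℝ) ∈ closure _
      convert hcl using 2
      ext t
      constructor
      · rintro ⟨w, hw, rfl⟩
        exact hw
      · intro ht
        exact ⟨⟨t, ht.1.le, ht.2.le⟩, ht, rfl⟩
    have heq : (fun z : II => ((ρ g z : II) : ℝ)) = fun z : II => (z : ℝ) := by
      refine Continuous.ext_on hd hc continuous_subtype_val ?_
      intro z hz
      have := h1 z hz
      rw [rl_eq] at this
      exact this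
    ext z
    exact congrFun heq z

theorem transfer (k : ℕ∞) (hk : 1 ≤ k) (G : Type*) [Group G] (ρ : G →* Equiv.Perm II)
    (hinj : Function.Injective ρ) (hs : ∀ g, ContMDiff (𝓡∂ 1) (𝓡∂ 1) (k : ℕ∞ω) (ρ g)) :
    ∃ ρ' : G →* Equiv.Perm (OnePoint ℝ), Function.Injective ρ' ∧
      ∀ g, ContMDiff (𝓡∂ 1) (𝓡∂ 1) (k : ℕ∞ω) (ρ' g) := by
  have hn : ∀ n : ℕ, ((n + 1 : ℕ) : ℕ∞) ≤ k → (∀ g, ContMDiff (𝓡∂ 1) (𝓡∂ 1) ((n + 1 : ℕ) : ℕ∞ω) (ρ g)) := by
    intro n hn g
    exact (hs g).of_le (by exact_mod_cast hn)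
  have h0 := transfer_nat 0 G ρ (hn 0 (by simpa using hk))
  have hone : Psi (ρ 1) = id := by
    funext z
    rw [map_one]
    exact Psi_id z
  let ρ' : G →* Equiv.Perm (OnePoint ℝ) :=
    { toFun := fun g =>
        { toFun := Psi (ρ g)
          invFun := Psi (ρ g⁻¹)
          left_inv := fun z => by
            rw [← h0.2.1, inv_mul_cancel, hone]
            rfl
          right_inv := fun z => by
            rw [← h0.2.1, mul_inv_cancel, hone]
            rfl }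
      map_one' := by
        ext1 z
        exact congrFun hone z
      map_mul' := fun g h => by
        ext1 z
        exact h0.2.1 g h z }
  have hρ' : ∀ g, (ρ' g : OnePoint ℝ → OnePoint ℝ) = Psi (ρ g) := fun g => rfl
  refine ⟨ρ', ?_, ?_⟩
  · rw [injective_iff_map_eq_one]
    intro g hg
    have h1 : Psi (ρ g) = id := by
      rw [← hρ', hg]
      rfl
    have h2 := h0.2.2 g h1
    exact (injective_iff_map_eq_one ρ).1 hinj g h2
  · intro g
    rw [hρ']
    have key : ∀ m : ℕ, ((m : ℕ) : ℕ∞) ≤ k → ContMDiff (𝓡∂ 1) (𝓡∂ 1) (m : ℕ∞ω) (Psi (ρ g)) := by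
      intro m hm
      cases m with
      | zero => exact (h0.1 g).of_le (by simp)
      | succ m => exact (transfer_nat m G ρ (hn m hm)).1 g
    induction k using ENat.recTopCoe with
    | top =>
      show ContMDiff (𝓡∂ 1) (𝓡∂ 1) ∞ (Psi (ρ g))
      rw [contMDiff_infty]
      exact fun m => key m le_top
    | coe m => exact key m le_rfl

/-- the circle is not homeomorphic to the interval -/
theorem not_homeo (h : II ≃ₜ OnePoint ℝ) : False := by
  let u : ℝ → ℝ := fun x => ((h.symm (x : OnePoint ℝ) : II) : ℝ)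
  let c : ℝ := ((h.symm OnePoint.infty : II) : ℝ)
  have hu : Continuous u := continuous_subtype_val.comp (h.symm.continuous.comp OnePoint.continuous_coe)
  have hinj : Function.Injective u := by
    intro a b hab
    have h1 : h.symm (a : OnePoint ℝ) = h.symm (b : OnePoint ℝ) := Subtype.ext hab
    exact OnePoint.coe_injective (h.symm.injective h1)
  have hlim : Tendsto u (Bornology.cobounded ℝ) (𝓝 c) := by
    have h1 : Tendsto (fun z : OnePoint ℝ => ((h.symm z : II) : ℝ)) (𝓝 OnePoint.infty) (𝓝 c) :=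
      (continuous_subtype_val.comp h.symm.continuous).tendsto _
    rw [← coclosedCompact_real]
    exact h1.comp OnePoint.tendsto_coe_infty
  have htop : Tendsto u atTop (𝓝 c) := hlim.mono_left (by rw [IsOrderBornology.cobounded_eq]; exact le_sup_right)
  have hbot : Tendsto u atBot (𝓝 c) := hlim.mono_left (by rw [IsOrderBornology.cobounded_eq]; exact le_sup_left)
  rcases hu.strictMono_of_inj hinj with hm | hm
  · have a1 : u 1 ≤ c := ge_of_tendsto htop (by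
      filter_upwards [eventually_ge_atTop 1] with x hx using hm.monotone hx)
    have a2 : c ≤ u 0 := le_of_tendsto hbot (by
      filter_upwards [eventually_le_atBot 0] with x hx using hm.monotone hx)
    have a3 := hm (zero_lt_one (α := ℝ))
    linarith
  · have a1 : c ≤ u 1 := le_of_tendsto htop (by
      filter_upwards [eventually_ge_atTop 1] with x hx using hm.antitone hx)
    have a2 : u 0 ≤ c := ge_of_tendsto hbot (by
      filter_upwards [eventually_le_atBot 0] with x hx using hm.antitone hx)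
    have a3 := hm (zero_lt_one (α := ℝ))
    linarith

end

end Pool.Agent.Helper208_C1
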