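import Mathlib

/-! Hadamard's lemma on `[0,1]`: if `h` is `C^{n+1}` on `[0,1]` and `h 0 = 0` then `h(q)/q` is `C^n` on `[0,1]`. -/

open Set Filter Topology MeasureTheory
open scoped ContDiff

namespace Pool.Agent.Helper208_C1

noncomputable section

/-- the averages `∫_0^1 u^m h(u q) du` -/
def Av (m : ℕ) (h : ℝ → ℝ) (q : ℝ) : ℝ := ∫ u in (0 : ℝ)..1, u ^ m * h (u * q)

lemma Av_congr (m : ℕ) {h h' : ℝ → ℝ} (e : EqOn h h' (Icc 0 1)) : EqOn (Av m h) (Av m h') (Icc 0 1) := by
  intro q hq
  unfold Av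
  refine intervalIntegral.integral_congr fun u hu => ?_
  rw [uIcc_of_le zero_le_one] at hu
  have : u * q ∈ Icc (0 : ℝ) 1 := ⟨mul_nonneg hu.1 hq.1, mul_le_one₀ hu.2 hq.1 hq.2⟩
  simp only [e this]

/-- continuous extension from `[0,1]` -/
def ext (h : ℝ → ℝ) (x : ℝ) : ℝ := h (projIcc (0 : ℝ) 1 zero_le_one x)

lemma ext_eq (h : ℝ → ℝ) : EqOn (ext h) h (Icc 0 1) := by
  intro x hx
  simp [ext, projIcc_of_mem zero_le_one hx]

lemma continuous_ext {h : ℝ → ℝ} (hh : ContinuousOn h (Icc 0 1)) : Continuous (ext h) := by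
  have : Continuous ((Icc (0 : ℝ) 1).domRestrict h) :=
    continuousOn_iff_continuous_domRestrict.1 hh
  exact this.comp continuous_projIcc

lemma bdd_ext {h : ℝ → ℝ} (hh : ContinuousOn h (Icc 0 1)) : ∃ C, ∀ x, |ext h x| ≤ C := by
  obtain ⟨C, hC⟩ := isCompact_Icc.exists_bound_of_continuousOn hh
  exact ⟨C, fun x => hC _ (projIcc (0 : ℝ) 1 zero_le_one x).2⟩

lemma continuous_Av (m : ℕ) {h : ℝ → ℝ} (hh : Continuous h) : Continuous (Av m h) := by
  unfold Av
  refine intervalIntegral.continuous_parametric_intervalIntegral_of_continuous' ?_ 0 1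
  fun_prop

lemma hasDerivAt_Av (m : ℕ) {h h' : ℝ → ℝ} (hh : ∀ x, HasDerivAt h (h' x) x) (hc : Continuous h') (C : ℝ)
    (hC : ∀ x, |h' x| ≤ C) (q : ℝ) : HasDerivAt (Av m h) (Av (m + 1) h' q) q := by
  have hcont : Continuous h := continuous_iff_continuousAt.2 fun x => (hh x).continuousAt
  have key := intervalIntegral.hasDerivAt_integral_of_dominated_loc_of_deriv_le (μ := volume) (a := 0) (b := 1)
    (F := fun q u => u ^ m * h (u * q)) (F' := fun q u => u ^ (m + 1) * h' (u * q)) (x₀ := q) (s := univ)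
    (bound := fun _ => C) univ_mem
    (Eventually.of_forall fun x => by
      apply Continuous.aestronglyMeasurable
      fun_prop)
    (by
      apply Continuous.intervalIntegrable
      fun_prop)
    (by
      apply Continuous.aestronglyMeasurable
      fun_prop)
    (Eventually.of_forall fun u hu x _ => by
      rw [uIoc_of_le zero_le_one] at hu
      rw [Real.norm_eq_abs, abs_mul, abs_pow, abs_of_pos hu.1]
      calc u ^ (m + 1) * |h' (u * x)| ≤ 1 * C :=
            mul_le_mul (pow_le_one₀ hu.1.le hu.2) (hC _) (abs_nonneg _) zero_le_one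
        _ = C := one_mul C)
    (by simp)
    (Eventually.of_forall fun u _ x _ => by
      have h1 : HasDerivAt (fun x => u * x) u x := by simpa using (hasDerivAt_id x).const_mul u
      have h2 := ((hh (u * x)).comp x h1).const_mul (u ^ m)
      have e : u ^ m * (h' (u * x) * u) = u ^ (m + 1) * h' (u * x) := by ring
      rw [e] at h2
      exact h2)
  exact key.2

lemma contDiffOn_Av (n : ℕ) : ∀ (m : ℕ) (h : ℝ → ℝ), ContDiffOn ℝ n h (Icc 0 1) →
    ContDiffOn ℝ n (Av m h) (Icc 0 1) := by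
  induction n with
  | zero =>
    intro m h hh
    have hc : ContinuousOn h (Icc 0 1) := hh.continuousOn
    simp only [Nat.cast_zero, contDiffOn_zero]
    exact (continuous_Av m (continuous_ext hc)).continuousOn.congr (Av_congr m (ext_eq h).symm)
  | succ n ih =>
    intro m h hh
    have hu : UniqueDiffOn ℝ (Icc (0 : ℝ) 1) := uniqueDiffOn_Icc zero_lt_one
    push_cast at hh ⊢
    rw [contDiffOn_succ_iff_derivWithin hu] at hh
    obtain ⟨hd, -, hd2⟩ := hh
    set h' : ℝ → ℝ := derivWithin h (Icc 0 1) with hh'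
    have hc' : ContinuousOn h' (Icc 0 1) := hd2.continuousOn
    have hce : Continuous (ext h') := continuous_ext hc'
    obtain ⟨C, hC⟩ := bdd_ext hc'
    -- a global C^1 extension
    set he : ℝ → ℝ := fun x => h 0 + ∫ s in (0 : ℝ)..x, ext h' s with hhe
    have hder : ∀ x, HasDerivAt he (ext h' x) x := by
      intro x
      have := (intervalIntegral.integral_hasDerivAt_right (hce.intervalIntegrable 0 x)
        (hce.stronglyMeasurableAtFilter _ _) hce.continuousAt).const_add (h 0)
      exact this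
    have heq : EqOn h he (Icc 0 1) := by
      intro x hx
      have h1 : ∫ s in (0 : ℝ)..x, ext h' s = h x - h 0 := by
        refine intervalIntegral.integral_eq_sub_of_hasDeriv_right_of_le hx.1
          (hd.continuousOn.mono (Icc_subset_Icc_right hx.2)) (fun y hy => ?_) (hce.intervalIntegrable 0 x)
        have hy' : y ∈ Icc (0 : ℝ) 1 := ⟨hy.1.le, hy.2.le.trans hx.2⟩
        rw [ext_eq h' hy']
        have h2 := (hd y hy').hasDerivWithinAt
        have h3 : HasDerivAt h (h' y) y := h2.hasDerivAt (Icc_mem_nhds hy.1 (hy.2.trans_le hx.2))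
        exact h3.hasDerivWithinAt
      rw [hhe]
      simp only [h1]
      ring
    have hA : ∀ q, HasDerivAt (Av m he) (Av (m + 1) (ext h') q) q := fun q =>
      hasDerivAt_Av m hder hce C hC q
    have hA' : ∀ q ∈ Icc (0 : ℝ) 1, HasDerivWithinAt (Av m h) (Av (m + 1) h' q) (Icc 0 1) q := by
      intro q hq
      have h1 := (hA q).hasDerivWithinAt (s := Icc 0 1)
      have h2 := h1.congr (fun y hy => Av_congr m heq hy) (Av_congr m heq hq)
      rwa [Av_congr (m + 1) (ext_eq h') hq] at h2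
    rw [contDiffOn_succ_iff_derivWithin hu]
    refine ⟨fun q hq => (hA' q hq).differentiableWithinAt, by simp, ?_⟩
    refine (ih (m + 1) h' hd2).congr fun q hq => ?_
    exact (hA' q hq).derivWithin (hu q hq)

/-- Hadamard's lemma -/
lemma hadamard (n : ℕ) {h : ℝ → ℝ} (hh : ContDiffOn ℝ (n + 1 : ℕ) h (Icc 0 1)) (h0 : h 0 = 0) :
    ∃ g : ℝ → ℝ, ContDiffOn ℝ n g (Icc 0 1) ∧ (∀ q ∈ Icc (0 : ℝ) 1, h q = q * g q) ∧
      g 0 = derivWithin h (Icc 0 1) 0 := by
  have hu : UniqueDiffOn ℝ (Icc (0 : ℝ) 1) := uniqueDiffOn_Icc zero_lt_one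
  push_cast at hh
  rw [contDiffOn_succ_iff_derivWithin hu] at hh
  obtain ⟨hd, -, hd2⟩ := hh
  refine ⟨Av 0 (derivWithin h (Icc 0 1)), contDiffOn_Av n 0 _ hd2, ?_, ?_⟩
  · intro q hq
    have hc' : ContinuousOn (derivWithin h (Icc 0 1)) (Icc 0 1) := hd2.continuousOn
    have hce : Continuous (ext (derivWithin h (Icc 0 1))) := continuous_ext hc'
    rw [Av_congr 0 (ext_eq _).symm hq]
    unfold Av
    simp only [pow_zero, one_mul]
    rw [intervalIntegral.mul_integral_comp_mul_right, zero_mul, one_mul]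
    have h1 : ∫ s in (0 : ℝ)..q, ext (derivWithin h (Icc 0 1)) s = h q - h 0 := by
      refine intervalIntegral.integral_eq_sub_of_hasDeriv_right_of_le hq.1
        (hd.continuousOn.mono (Icc_subset_Icc_right hq.2)) (fun y hy => ?_) (hce.intervalIntegrable 0 q)
      have hy' : y ∈ Icc (0 : ℝ) 1 := ⟨hy.1.le, hy.2.le.trans hq.2⟩
      rw [ext_eq _ hy']
      have h2 := (hd y hy').hasDerivWithinAt
      have h3 : HasDerivAt h (derivWithin h (Icc 0 1) y) y :=
        h2.hasDerivAt (Icc_mem_nhds hy.1 (hy.2.trans_le hq.2))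
      exact h3.hasDerivWithinAt
    rw [h1, h0, sub_zero]
  · simp [Av]

end

end Pool.Agent.Helper208_C1
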