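import Pool.Agent.Helper208_C1.Had

/-! One-sided analysis at the point at infinity. -/

open Set Filter Topology
open scoped ContDiff

namespace Pool.Agent.Helper208_C1

noncomputable section

/-- `e^{-1/y}` for `y > 0`, zero for `y ≤ 0` -/
abbrev E (y : ℝ) : ℝ := expNegInvGlue y

/-- `exp (- e^{1/y})` -/
def T (y : ℝ) : ℝ := E (E y)

/-- `1 / (1 + exp (e^{1/y}))` -/
def qq (y : ℝ) : ℝ := T y / (1 + T y)

lemma E_pos {y : ℝ} (hy : 0 < y) : 0 < E y := expNegInvGlue.pos_of_pos hy

lemma E_nonneg (y : ℝ) : 0 ≤ E y := expNegInvGlue.nonneg y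

lemma E_of_pos {y : ℝ} (hy : 0 < y) : E y = Real.exp (-y⁻¹) := by
  simp [E, expNegInvGlue, not_le.2 hy]

lemma E_of_nonpos {y : ℝ} (hy : y ≤ 0) : E y = 0 := expNegInvGlue.zero_of_nonpos hy

lemma E_lt_one (y : ℝ) : E y < 1 := by
  rcases le_or_gt y 0 with h | h
  · rw [E_of_nonpos h]; exact one_pos
  · rw [E_of_pos h]
    rw [Real.exp_lt_one_iff]
    simpa using h

lemma contDiff_E {n : ℕ∞} : ContDiff ℝ n E := expNegInvGlue.contDiff

lemma T_nonneg (y : ℝ) : 0 ≤ T y := E_nonneg _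

lemma T_lt_one (y : ℝ) : T y < 1 := E_lt_one _

lemma T_pos {y : ℝ} (hy : 0 < y) : 0 < T y := E_pos (E_pos hy)

lemma T_of_nonpos {y : ℝ} (hy : y ≤ 0) : T y = 0 := by
  unfold T
  rw [E_of_nonpos hy]
  exact E_of_nonpos le_rfl

lemma qq_nonneg (y : ℝ) : 0 ≤ qq y := div_nonneg (T_nonneg y) (by linarith [T_nonneg y])

lemma qq_lt_one (y : ℝ) : qq y < 1 := by
  unfold qq
  rw [div_lt_one (by linarith [T_nonneg y])]
  linarith

lemma qq_pos {y : ℝ} (hy : 0 < y) : 0 < qq y := div_pos (T_pos hy) (by linarith [T_nonneg y])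

lemma qq_of_nonpos {y : ℝ} (hy : y ≤ 0) : qq y = 0 := by
  unfold qq
  rw [T_of_nonpos hy, zero_div]

lemma qq_mem (y : ℝ) : qq y ∈ Icc (0 : ℝ) 1 := ⟨qq_nonneg y, (qq_lt_one y).le⟩

lemma contDiff_T {n : ℕ∞} : ContDiff ℝ n T := contDiff_E.comp contDiff_E

lemma contDiff_qq {n : ℕ∞} : ContDiff ℝ n qq := by
  unfold qq
  exact contDiff_T.div (contDiff_const.add contDiff_T) fun y => by linarith [T_nonneg y]

lemma hasDerivAt_E {y : ℝ} (hy : 0 < y) : HasDerivAt E (E y * (y ^ 2)⁻¹) y := by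
  have h1 : HasDerivAt (fun y : ℝ => Real.exp (-y⁻¹)) (Real.exp (-y⁻¹) * (y ^ 2)⁻¹) y := by
    have h2 := (hasDerivAt_inv hy.ne').neg.exp
    refine HasDerivAt.congr_deriv h2 ?_
    simp
  have h3 : E =ᶠ[𝓝 y] fun y : ℝ => Real.exp (-y⁻¹) := by
    filter_upwards [Ioi_mem_nhds hy] with z hz
    exact E_of_pos hz
  rw [E_of_pos hy]
  exact h1.congr_of_eventuallyEq h3

lemma hasDerivAt_T {y : ℝ} (hy : 0 < y) : HasDerivAt T (T y * (E y)⁻¹ * (y ^ 2)⁻¹) y := by
  have h1 : HasDerivAt T _ y := (hasDerivAt_E (E_pos hy)).comp y (hasDerivAt_E hy)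
  refine HasDerivAt.congr_deriv h1 ?_
  have := (E_pos hy).ne'
  unfold T
  field_simp

lemma hasDerivAt_qq {y : ℝ} (hy : 0 < y) :
    HasDerivAt qq (qq y * (1 - qq y) * (E y)⁻¹ * (y ^ 2)⁻¹) y := by
  have h0 : (1 : ℝ) + T y ≠ 0 := by linarith [T_nonneg y]
  have h1 : HasDerivAt qq _ y := (hasDerivAt_T hy).div ((hasDerivAt_T hy).const_add 1) h0
  refine HasDerivAt.congr_deriv h1 ?_
  have := (E_pos hy).ne'
  have hy' := hy.ne'
  unfold qq
  field_simp
  try ring

lemma log_qq {y : ℝ} (hy : 0 < y) : Real.log (qq y) - Real.log (1 - qq y) = -(E y)⁻¹ := by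
  have h0 : (0 : ℝ) < 1 + T y := by linarith [T_nonneg y]
  have h1 : 1 - qq y = 1 / (1 + T y) := by
    unfold qq
    field_simp
    ring
  rw [h1]
  unfold qq
  rw [Real.log_div (T_pos hy).ne' h0.ne', Real.log_div one_ne_zero h0.ne', Real.log_one]
  have : Real.log (T y) = -(E y)⁻¹ := by
    unfold T
    rw [E_of_pos (E_pos hy), Real.log_exp]
  rw [this]
  ring

/-- the map in the coordinate at infinity, on the positive side; identity on the negative side -/
def Gp (h : ℝ → ℝ) (y : ℝ) : ℝ :=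
  if 0 < y then (Real.log (Real.log ((1 - h (qq y)) / h (qq y))))⁻¹ else y

lemma Gp_contDiffAt (n : ℕ) {h : ℝ → ℝ} (hh : ContDiffOn ℝ (n + 1 : ℕ) h (Icc 0 1)) (h0 : h 0 = 0)
    (hd : 0 < derivWithin h (Icc 0 1) 0) (hpos : ∀ x ∈ Ioo (0 : ℝ) 1, 0 < h x)
    (hlt : ∀ x ∈ Ico (0 : ℝ) 1, h x < 1) : ContDiffAt ℝ (n + 1 : ℕ) (Gp h) 0 ∧
      ∀ᶠ y in 𝓝 (0 : ℝ), 0 < y → 0 < Gp h y ∧ 0 < Real.log ((1 - h (qq y)) / h (qq y)) := by
  obtain ⟨g, hg1, hg2, hg3⟩ := hadamard n hh h0
  have hu : UniqueDiffOn ℝ (Icc (0 : ℝ) 1) := uniqueDiffOn_Icc zero_lt_one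
  have hh' : ContDiffOn ℝ n (derivWithin h (Icc 0 1)) (Icc 0 1) := by
    have := hh
    push_cast at this
    rw [contDiffOn_succ_iff_derivWithin hu] at this
    exact this.2.2
  have hhn : ContDiffOn ℝ n h (Icc 0 1) := hh.of_le (by exact_mod_cast Nat.le_succ n)
  set d : ℝ → ℝ := derivWithin h (Icc 0 1) with hdd
  have hgpos : ∀ x ∈ Ico (0 : ℝ) 1, 0 < g x := by
    intro x hx
    rcases hx.1.eq_or_lt with rfl | hx0
    · rw [hg3]; exact hd
    · have h1 := hpos x ⟨hx0, hx.2⟩
      rw [hg2 x ⟨hx.1, hx.2.le⟩] at h1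
      exact pos_of_mul_pos_right h1 hx0.le
  have hqI : ∀ y, qq y ∈ Ico (0 : ℝ) 1 := fun y => ⟨qq_nonneg y, qq_lt_one y⟩
  -- the compositions
  have hcomp : ∀ f : ℝ → ℝ, ContDiffOn ℝ n f (Icc 0 1) → ContDiff ℝ n fun y => f (qq y) := by
    intro f hf
    have := hf.comp (contDiff_qq (n := n)).contDiffOn (fun y (_ : y ∈ univ) => qq_mem y)
    rwa [contDiffOn_univ] at this
  have c1 := hcomp h hhn
  have c2 := hcomp g hg1
  have c3 := hcomp d hh'
  have c4 : ContDiff ℝ n qq := contDiff_qq (n := n)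
  have c5 : ContDiff ℝ n E := contDiff_E (n := n)
  set R : ℝ → ℝ := fun y => Real.log (1 - h (qq y)) - Real.log (1 - qq y) - Real.log (g (qq y)) with hR
  have n1 : ∀ y, (0 : ℝ) < 1 - h (qq y) := fun y => by linarith [hlt _ (hqI y)]
  have n2 : ∀ y, (0 : ℝ) < 1 - qq y := fun y => by linarith [(hqI y).2]
  have n3 : ∀ y, (0 : ℝ) < g (qq y) := fun y => hgpos _ (hqI y)
  have cR : ContDiff ℝ n R := by
    refine (ContDiff.sub (ContDiff.log ?_ ?_) (ContDiff.log ?_ ?_)).sub (ContDiff.log ?_ ?_)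
    · exact contDiff_const.sub c1
    · exact fun y => (n1 y).ne'
    · exact contDiff_const.sub c4
    · exact fun y => (n2 y).ne'
    · exact c2
    · exact fun y => (n3 y).ne'
  set W : ℝ → ℝ := fun y => 1 + E y * R y with hW
  have cW : ContDiff ℝ n W := contDiff_const.add (c5.mul cR)
  have W0 : W 0 = 1 := by
    simp only [hW, E_of_nonpos le_rfl, zero_mul, add_zero]
  have cL : ContDiffAt ℝ n (fun y => Real.log (W y)) 0 := by
    refine cW.contDiffAt.log ?_
    rw [W0]; exact one_ne_zero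
  set V : ℝ → ℝ := fun y => 1 + y * Real.log (W y) with hV
  have cV : ContDiffAt ℝ n V 0 := contDiffAt_const.add (contDiffAt_id.mul cL)
  have V0 : V 0 = 1 := by simp [hV]
  set A : ℝ → ℝ := fun y => d (qq y) * (1 - qq y) / ((1 - h (qq y)) * g (qq y)) with hA
  have cA : ContDiff ℝ n A := by
    refine (c3.mul (contDiff_const.sub c4)).div ((contDiff_const.sub c1).mul c2) fun y => ?_
    exact (mul_pos (n1 y) (n3 y)).ne'
  set D : ℝ → ℝ := fun y => A y * (W y)⁻¹ * ((V y) ^ 2)⁻¹ with hD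
  have cD : ContDiffAt ℝ n D 0 := by
    refine (cA.contDiffAt.mul (cW.contDiffAt.inv ?_)).mul ((cV.pow 2).inv ?_)
    · rw [W0]; exact one_ne_zero
    · rw [V0]; norm_num
  -- values on the nonpositive side
  have D_nonpos : ∀ y ≤ 0, D y = 1 := by
    intro y hy
    simp only [hD, hA, hW, hV, qq_of_nonpos hy, E_of_nonpos hy, zero_mul, add_zero, Real.log_one, mul_zero,
      sub_zero, h0, mul_one, one_mul, hg3]
    rw [div_self hd.ne']
    norm_num
  -- the key identities on the positive side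
  have hF : ∀ y, 0 < y → 0 < W y → Real.log ((1 - h (qq y)) / h (qq y)) = W y * (E y)⁻¹ := by
    intro y hy _
    have hq0 := qq_pos hy
    have hhq : h (qq y) = qq y * g (qq y) := hg2 _ (qq_mem y)
    have hhpos : 0 < h (qq y) := hpos _ ⟨hq0, qq_lt_one y⟩
    rw [Real.log_div (n1 y).ne' hhpos.ne']
    have e1 : Real.log (h (qq y)) = Real.log (qq y) + Real.log (g (qq y)) := by
      rw [hhq, Real.log_mul hq0.ne' (n3 y).ne']
    have e2 := log_qq hy
    have e3 : W y * (E y)⁻¹ = (E y)⁻¹ + R y := by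
      have := (E_pos hy).ne'
      simp only [hW]
      field_simp
    rw [e3, e1]
    simp only [hR]
    linarith
  have hlogF : ∀ y, 0 < y → 0 < W y → y * Real.log (Real.log ((1 - h (qq y)) / h (qq y))) = V y := by
    intro y hy hWy
    rw [hF y hy hWy, Real.log_mul hWy.ne' (inv_ne_zero (E_pos hy).ne'), Real.log_inv, E_of_pos hy, Real.log_exp]
    simp only [hV]
    field_simp
    ring
  have ev : ∀ᶠ y in 𝓝 (0 : ℝ), 0 < W y ∧ 0 < V y := by
    refine (cW.continuous.continuousAt.eventually_const_lt (by rw [W0]; exact one_pos)).and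
      (cV.continuousAt.eventually_const_lt (by rw [V0]; exact one_pos))
  have hGp : ∀ y, 0 < y → 0 < W y → 0 < V y → Gp h y = y * (V y)⁻¹ := by
    intro y hy hWy hVy
    have := hlogF y hy hWy
    unfold Gp
    rw [if_pos hy, ← this]
    have h1 : Real.log (Real.log ((1 - h (qq y)) / h (qq y))) ≠ 0 := by
      intro h2
      rw [h2, mul_zero] at this
      exact hVy.ne this
    field_simp
  constructor
  · -- derivative
    have hder : ∀ᶠ y in 𝓝 (0 : ℝ), HasDerivAt (Gp h) (D y) y := by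
      filter_upwards [ev.eventually_nhds] with y hy
      have hWy := hy.self_of_nhds.1
      have hVy := hy.self_of_nhds.2
      rcases lt_trichotomy y 0 with hy0 | hy0 | hy0
      · rw [D_nonpos y hy0.le]
        refine (hasDerivAt_id y).congr_of_eventuallyEq ?_
        filter_upwards [Iio_mem_nhds hy0] with z hz
        have hz' : z < 0 := hz
        simp [Gp, not_lt.2 hz'.le]
      · subst hy0
        rw [D_nonpos 0 le_rfl, hasDerivAt_iff_tendsto_slope]
        have hlim : Tendsto (fun y => if 0 < y then (V y)⁻¹ else 1) (𝓝[≠] 0) (𝓝 1) := by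
          have h1 : Tendsto (fun y => (V y)⁻¹) (𝓝[≠] 0) (𝓝 1) := by
            have h2 := (cV.continuousAt.inv₀ (by rw [V0]; exact one_ne_zero)).tendsto
            simp only [Pi.inv_apply, V0, inv_one] at h2
            exact h2.mono_left nhdsWithin_le_nhds
          exact Tendsto.if' h1 tendsto_const_nhds
        refine hlim.congr' ?_
        filter_upwards [self_mem_nhdsWithin, nhdsWithin_le_nhds ev] with z hz hz2
        have hz0 : z ≠ 0 := hz
        have g0 : Gp h 0 = 0 := by simp [Gp]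
        rw [slope_def_field, g0, sub_zero, sub_zero]
        split_ifs with hzp
        · rw [hGp z hzp hz2.1 hz2.2]
          field_simp
        · have : Gp h z = z := by simp [Gp, hzp]
          rw [this, div_self hz0]
      · -- positive
        have hq0 := qq_pos hy0
        have hqm : qq y ∈ Ioo (0 : ℝ) 1 := ⟨hq0, qq_lt_one y⟩
        have hhpos : 0 < h (qq y) := hpos _ hqm
        have hdh : HasDerivAt h (d (qq y)) (qq y) := by
          have h1 : DifferentiableOn ℝ h (Icc 0 1) := hh.differentiableOn (by simp)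
          have h2 := (h1 (qq y) (qq_mem y)).hasDerivWithinAt
          exact h2.hasDerivAt (Icc_mem_nhds hqm.1 hqm.2)
        have hc := hdh.comp y (hasDerivAt_qq hy0)
        have hF1 : HasDerivAt (fun y => Real.log ((1 - h (qq y)) / h (qq y)))
            (-(d (qq y) * (1 - qq y) * (E y)⁻¹ * (y ^ 2)⁻¹ / ((1 - h (qq y)) * g (qq y)))) y := by
          have h3 : HasDerivAt (fun y => Real.log ((1 - h (qq y)) / h (qq y))) _ y :=
            ((hc.const_sub 1).div hc hhpos.ne').log (div_pos (n1 y) hhpos).ne'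
          refine HasDerivAt.congr_deriv h3 ?_
          have hhq : h (qq y) = qq y * g (qq y) := hg2 _ (qq_mem y)
          have a1 := (n1 y).ne'
          have a2 := (n3 y).ne'
          have a3 := hq0.ne'
          have a4 := (E_pos hy0).ne'
          have a5 := hhpos.ne'
          simp only [Function.comp, Pi.div_apply]
          rw [hhq] at a1 a5 ⊢
          field_simp
          ring
        have hFpos : 0 < Real.log ((1 - h (qq y)) / h (qq y)) := by
          rw [hF y hy0 hWy]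
          exact mul_pos hWy (inv_pos.2 (E_pos hy0))
        have hLne : Real.log (Real.log ((1 - h (qq y)) / h (qq y))) ≠ 0 := by
          intro h2
          have := hlogF y hy0 hWy
          rw [h2, mul_zero] at this
          exact hVy.ne this
        have hF2 := (hF1.log hFpos.ne').inv hLne
        have hF3 : HasDerivAt (Gp h) (D y) y := by
          have e1 : Gp h =ᶠ[𝓝 y] (fun y => Real.log (Real.log ((1 - h (qq y)) / h (qq y))))⁻¹ := by
            filter_upwards [Ioi_mem_nhds hy0] with z hz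
            have hz' : 0 < z := hz
            simp [Gp, hz']
          refine HasDerivAt.congr_of_eventuallyEq ?_ e1
          refine HasDerivAt.congr_deriv hF2 ?_
          have hL := hlogF y hy0 hWy
          have hFy := hF y hy0 hWy
          have a4 := (E_pos hy0).ne'
          have a6 := hWy.ne'
          have a7 := hy0.ne'
          have a1 := (n1 y).ne'
          have a2 := (n3 y).ne'
          simp only [hD, hA]
          rw [← hL, hFy]
          have a8 : Real.log (W y * (E y)⁻¹) ≠ 0 := by rwa [hFy] at hLne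
          field_simp
        exact hF3
    rw [show ((n + 1 : ℕ) : ℕ∞ω) = (n : ℕ∞ω) + 1 by push_cast; rfl, contDiffAt_succ_iff_hasFDerivAt]
    refine ⟨fun y => ContinuousLinearMap.toSpanSingleton ℝ (D y), ⟨_, hder, fun y hy => hy.hasFDerivAt⟩, ?_⟩
    exact (ContinuousLinearMap.toSpanSingletonCLE (𝕜 := ℝ) (E := ℝ)).contDiff.contDiffAt.comp 0 cD
  · filter_upwards [ev] with y hy hy0
    refine ⟨?_, ?_⟩
    · rw [hGp y hy0 hy.1 hy.2]
      exact mul_pos hy0 (inv_pos.2 hy.2)
    · rw [hF y hy0 hy.1]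
      exact mul_pos hy.1 (inv_pos.2 (E_pos hy0))

end

end Pool.Agent.Helper208_C1
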